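import Pool.Agent.H163Z.BM.Upper

/-! A special slope and a slice of dimension at least 1/50. -/

namespace Pool.Agent.H163Z.BM

open Finset Filter Topology MeasureTheory
open scoped ENNReal NNReal

def tau (k : ℕ) : ℕ := 32 * 8 ^ Nat.log 8 k + k

lemma tau_mono : StrictMono tau := by
  intro k l h
  have : 8 ^ Nat.log 8 k ≤ 8 ^ Nat.log 8 l :=
    Nat.pow_le_pow_right (by norm_num) (Nat.log_mono_right h.le)
  unfold tau
  omega

lemma tau_win (k : ℕ) : 32 * 8 ^ Nat.log 8 k ≤ tau k ∧ tau k < 64 * 8 ^ Nat.log 8 k := by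
  have := Nat.lt_pow_succ_log_self (show 1 < 8 by norm_num) k
  rw [pow_succ] at this
  unfold tau
  omega

lemma tau_le (k : ℕ) : tau k ≤ 33 * k + 32 := by
  unfold tau
  rcases Nat.eq_zero_or_pos k with rfl | hk
  · simp
  · have := Nat.pow_log_le_self 8 hk.ne'
    omega

lemma tau_gap (k i : ℕ) : ¬ (64 * 8 ^ i ≤ tau k ∧ tau k < 256 * 8 ^ i) := by
  rintro ⟨h1, h2⟩
  obtain ⟨h3, h4⟩ := tau_win k
  rcases le_or_gt (Nat.log 8 k) i with h | h
  · have : 8 ^ Nat.log 8 k ≤ 8 ^ i := Nat.pow_le_pow_right (by norm_num) h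
    omega
  · have : 8 ^ (i + 1) ≤ 8 ^ Nat.log 8 k := Nat.pow_le_pow_right (by norm_num) h
    rw [pow_succ] at this
    omega

noncomputable def xd (u : ℕ → ℕ) : ℕ → ℕ := Function.extend tau (fun k => 2 * u k) 0

lemma xd_tau (u : ℕ → ℕ) (k : ℕ) : xd u (tau k) = 2 * u k := tau_mono.injective.extend_apply _ _ _

lemma xd_not (u : ℕ → ℕ) {t : ℕ} (h : ¬ ∃ k, tau k = t) : xd u t = 0 :=
  Function.extend_apply' _ _ _ h

lemma xd_lt {M m : ℕ} (hM : 2 * M ≤ m) {u : ℕ → ℕ} (hu : ∀ k, u k < M) (t : ℕ) : xd u t < m := by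
  by_cases h : ∃ k, tau k = t
  · obtain ⟨k, rfl⟩ := h
    rw [xd_tau]; have := hu k; omega
  · rw [xd_not u h]; have := hu 0; omega

lemma sum_eq_div {b : ℕ} (hb : 0 < b) (a : ℕ → ℕ) (K : ℕ) :
    ∃ X : ℕ, ∑ i ∈ range K, (a i : ℝ) / (b : ℝ) ^ (i + 1) = X / (b : ℝ) ^ K := by
  have hb' : (b : ℝ) ≠ 0 := by positivity
  induction K with
  | zero => exact ⟨0, by simp⟩
  | succ K ih =>
    obtain ⟨X, hX⟩ := ih
    refine ⟨X * b + a K, ?_⟩
    rw [Finset.sum_range_succ, hX]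
    push_cast
    field_simp
    ring

lemma x_approx {M m : ℕ} (hM : 2 * M ≤ m) {u : ℕ → ℕ} (hu : ∀ k, u k < M) (i : ℕ) :
    ∃ (X : ℕ) (ξ : ℝ), 0 ≤ ξ ∧ ξ ≤ ((m : ℝ) ^ (256 * 8 ^ i))⁻¹ ∧
      val m (xd u) = X / (m : ℝ) ^ (64 * 8 ^ i) + ξ := by
  have hm : 0 < m := by have := hu 0; omega
  have hlt := xd_lt hM hu
  obtain ⟨X, hX⟩ := sum_eq_div hm (xd u) (64 * 8 ^ i)
  refine ⟨X, _, ?_, ?_, by rw [val_split hlt (64 * 8 ^ i), hX]⟩
  · have := val_nonneg m fun j => xd u (j + 64 * 8 ^ i)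
    positivity
  · rw [val_split (fun j => hlt _) (192 * 8 ^ i)]
    have h0 : ∑ j ∈ range (192 * 8 ^ i), (xd u (j + 64 * 8 ^ i) : ℝ) / (m : ℝ) ^ (j + 1) = 0 := by
      refine Finset.sum_eq_zero fun j hj => ?_
      rw [xd_not u, Nat.cast_zero, zero_div]
      rintro ⟨k, hk⟩
      have := Finset.mem_range.1 hj
      exact tau_gap k i ⟨by omega, by omega⟩
    rw [h0, zero_add, ← mul_assoc, ← mul_inv, ← pow_add,
      show 64 * 8 ^ i + 192 * 8 ^ i = 256 * 8 ^ i by omega]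
    exact mul_le_of_le_one_right (by positivity) (val_le_one fun j => hlt _)

lemma slope {m n : ℕ} (hm : 4 ≤ m) (hn : m ^ 3 ≤ n) :
    ∃ a : ℝ, 0 < a ∧ a < 1 ∧ ∀ i : ℕ, ∃ (p : ℕ) (δ : ℝ), 0 ≤ δ ∧
      δ ≤ 2 * ((m : ℝ) ^ (256 * 8 ^ i))⁻¹ ∧
      a = p * ((m : ℝ) ^ (64 * 8 ^ i) / (n : ℝ) ^ (32 * 8 ^ i)) + δ := by
  have hm' : (4 : ℝ) ≤ m := by exact_mod_cast hm
  have hn' : (m : ℝ) ^ 3 ≤ n := by exact_mod_cast hn
  have hm0 : (0 : ℝ) < m := by linarith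
  have hn0 : (0 : ℝ) < n := lt_of_lt_of_le (by positivity) hn'
  set g : ℕ → ℝ := fun i => (m : ℝ) ^ (64 * 8 ^ i) / (n : ℝ) ^ (32 * 8 ^ i) with hg
  set l : ℕ → ℝ := fun i => ((m : ℝ) ^ (256 * 8 ^ i))⁻¹ with hl
  have g0 : ∀ i, 0 < g i := fun i => by positivity
  have l0 : ∀ i, 0 < l i := fun i => by positivity
  have hgle : ∀ i, g i ≤ ((m : ℝ) ^ (32 * 8 ^ i))⁻¹ := by
    intro i
    simp only [hg]
    rw [div_le_iff₀ (by positivity), ← div_eq_inv_mul, le_div_iff₀ (by positivity), ← pow_add,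
      show 64 * 8 ^ i + 32 * 8 ^ i = 3 * (32 * 8 ^ i) by omega, pow_mul]
    gcongr
  have hgl : ∀ i, g (i + 1) ≤ l i := by
    intro i
    refine (hgle _).trans (le_of_eq ?_)
    simp only [hl]
    rw [pow_succ 8 i]
    congr 2
    omega
  have hll : ∀ i, 2 * l (i + 1) ≤ l i := by
    intro i
    simp only [hl]
    have h8 : 0 < 8 ^ i := by positivity
    rw [← div_eq_mul_inv, div_le_iff₀ (by positivity), ← div_eq_inv_mul,
      le_div_iff₀ (by positivity)]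
    calc 2 * (m : ℝ) ^ (256 * 8 ^ i) ≤ m * (m : ℝ) ^ (256 * 8 ^ i) := by gcongr; linarith
      _ = (m : ℝ) ^ (256 * 8 ^ i + 1) := by ring
      _ ≤ _ := pow_le_pow_right₀ (by linarith) (by rw [pow_succ 8 i]; omega)
  let s : ℕ → ℝ := fun i => Nat.rec (g 0) (fun i y => ⌈y / g (i + 1)⌉₊ * g (i + 1)) i
  have hs : ∀ i, s (i + 1) = ⌈s i / g (i + 1)⌉₊ * g (i + 1) := fun i => rfl
  have hs1 : ∀ i, s i ≤ s (i + 1) := by
    intro i
    rw [hs, ← div_le_iff₀ (g0 _)]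
    exact Nat.le_ceil _
  have sm : Monotone s := monotone_nat_of_le_succ hs1
  have s0 : ∀ i, 0 < s i := fun i => (g0 0).trans_le (sm (Nat.zero_le i))
  have hs2 : ∀ i, s (i + 1) + 2 * l (i + 1) ≤ s i + 2 * l i := by
    intro i
    have h1 : (⌈s i / g (i + 1)⌉₊ : ℝ) < s i / g (i + 1) + 1 :=
      Nat.ceil_lt_add_one (div_pos (s0 i) (g0 _)).le
    have h2 : s (i + 1) ≤ s i + g (i + 1) := by
      rw [hs]
      have := g0 (i + 1)
      calc _ ≤ (s i / g (i + 1) + 1) * g (i + 1) := by gcongr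
        _ = _ := by field_simp
    linarith [hgl i, hll i]
  have am : Antitone fun i => s i + 2 * l i := antitone_nat_of_succ_le hs2
  have hb : ∀ i j, s j ≤ s i + 2 * l i := by
    intro i j
    rcases le_total i j with h | h
    · have := am h
      simp only at this
      linarith [l0 j]
    · linarith [sm h, l0 i]
  have hbdd : BddAbove (Set.range s) := ⟨_, by rintro _ ⟨j, rfl⟩; exact hb 0 j⟩
  refine ⟨⨆ i, s i, (s0 0).trans_le (le_ciSup hbdd 0), ?_, fun i => ?_⟩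
  · refine (ciSup_le (hb 0)).trans_lt ?_
    have h1 : s 0 ≤ 1 / 4 := by
      refine (hgle 0).trans ?_
      rw [one_div]
      apply inv_anti₀ (by norm_num)
      exact hm'.trans (le_self_pow₀ (by linarith) (by norm_num))
    have h2 : l 0 ≤ 1 / 4 := by
      simp only [hl]
      rw [one_div]
      apply inv_anti₀ (by norm_num)
      exact hm'.trans (le_self_pow₀ (by linarith) (by norm_num))
    linarith
  · have h1 : ∃ p : ℕ, s i = p * g i := by
      cases i with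
      | zero => exact ⟨1, by simp [s]⟩
      | succ i => exact ⟨_, hs i⟩
    obtain ⟨p, hp⟩ := h1
    refine ⟨p, (⨆ i, s i) - s i, sub_nonneg.2 (le_ciSup hbdd i), ?_, ?_⟩
    · have := ciSup_le (hb i)
      linarith
    · rw [hp]; ring

lemma digit_zero {n : ℕ} [NeZero n] {y η : ℝ} {Y A B t : ℕ} (hy : y = Y / (n : ℝ) ^ A + η)
    (h0 : 0 ≤ η) (h1 : η * (n : ℝ) ^ B < 1) (hA : A ≤ t) (hB : t < B) :
    (Real.digits y n t : ℕ) = 0 := by
  have hn : 0 < n := NeZero.pos n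
  have hn' : (1 : ℝ) ≤ n := by exact_mod_cast hn
  obtain ⟨r, rfl⟩ := Nat.exists_eq_add_of_le hA
  have h2 : ⌊y * (n : ℝ) ^ (A + r + 1)⌋₊ = Y * n ^ r * n := by
    rw [Nat.floor_eq_iff (by rw [hy]; positivity)]
    have e : y * (n : ℝ) ^ (A + r + 1) = ((Y * n ^ r * n : ℕ) : ℝ) + η * (n : ℝ) ^ (A + r + 1) := by
      rw [hy]; push_cast; field_simp; ring
    have h3 : η * (n : ℝ) ^ (A + r + 1) ≤ η * (n : ℝ) ^ B :=
      mul_le_mul_of_nonneg_left (pow_le_pow_right₀ hn' hB) h0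
    have h4 : 0 ≤ η * (n : ℝ) ^ (A + r + 1) := by positivity
    rw [e]
    constructor <;> linarith
  simp only [Real.digits, Fin.val_ofNat, h2, Nat.mul_mod_left]

lemma mem_Car {M m n : ℕ} (hM : 2 * M ≤ m) (hm : 4 ≤ m) (hn : m ^ 3 ≤ n) (hn' : 3 * n < m ^ 4)
    {a : ℝ} (ha0 : 0 < a) (ha1 : a < 1)
    (ha : ∀ i : ℕ, ∃ (p : ℕ) (δ : ℝ), 0 ≤ δ ∧ δ ≤ 2 * ((m : ℝ) ^ (256 * 8 ^ i))⁻¹ ∧
      a = p * ((m : ℝ) ^ (64 * 8 ^ i) / (n : ℝ) ^ (32 * 8 ^ i)) + δ)
    {u : ℕ → ℕ} (hu : ∀ k, u k < M) : (val m (xd u), a * val m (xd u)) ∈ Car m n := by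
  have hn1 : 1 < n := by
    have : 4 ^ 3 ≤ m ^ 3 := Nat.pow_le_pow_left hm 3
    omega
  have : NeZero n := ⟨by omega⟩
  have hlt := xd_lt hM hu
  have hx0 := val_nonneg m (xd u)
  have hx1 := val_le_one hlt
  have hy : a * val m (xd u) ∈ Set.Ico (0 : ℝ) 1 := ⟨by positivity, by nlinarith⟩
  refine ⟨fun t => (xd u t, (Real.digits (a * val m (xd u)) n t : ℕ)), fun t => ?_, rfl,
    (val_digits hn1 hy).symm⟩
  refine mem_Dg.2 ⟨⟨hlt t, (Real.digits _ n t).2⟩, ?_⟩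
  by_cases h : ∃ k, tau k = t
  · right
    obtain ⟨k, rfl⟩ := h
    obtain ⟨p, δ, h1, h2, h3⟩ := ha (Nat.log 8 k)
    obtain ⟨X, ξ, h4, h5, h6⟩ := x_approx hM hu (Nat.log 8 k)
    have hm0 : (0 : ℝ) < m := by exact_mod_cast (by omega : 0 < m)
    have hn0 : (0 : ℝ) < n := by exact_mod_cast (by omega : 0 < n)
    refine digit_zero (Y := p * X) (η := δ * (X / (m : ℝ) ^ (64 * 8 ^ Nat.log 8 k)) + a * ξ)
      (A := 32 * 8 ^ Nat.log 8 k) (B := 64 * 8 ^ Nat.log 8 k) ?_ (by positivity) ?_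
      (tau_win k).1 (tau_win k).2
    · rw [h6, mul_add, ← add_assoc]
      congr 1
      rw [h3]
      push_cast
      field_simp
    · have h7 : (X : ℝ) / (m : ℝ) ^ (64 * 8 ^ Nat.log 8 k) ≤ 1 := by linarith
      have h8 : δ * (X / (m : ℝ) ^ (64 * 8 ^ Nat.log 8 k)) + a * ξ ≤
          3 * ((m : ℝ) ^ (256 * 8 ^ Nat.log 8 k))⁻¹ := by
        have := mul_le_of_le_one_right h1 h7
        have := mul_le_of_le_one_left h4 ha1.le
        linarith
      refine (mul_le_mul_of_nonneg_right h8 (by positivity)).trans_lt ?_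
      have h9 : 0 < 64 * 8 ^ Nat.log 8 k := by positivity
      rw [show 256 * 8 ^ Nat.log 8 k = 4 * (64 * 8 ^ Nat.log 8 k) by omega]
      generalize 64 * 8 ^ Nat.log 8 k = B at h9
      rw [mul_right_comm, ← div_eq_mul_inv, div_lt_one (by positivity), pow_mul]
      have h10 : 3 * (n : ℝ) < (m : ℝ) ^ 4 := by exact_mod_cast hn'
      calc 3 * (n : ℝ) ^ B ≤ 3 ^ B * (n : ℝ) ^ B := by
            gcongr
            exact le_self_pow₀ (by norm_num) h9.ne'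
        _ = (3 * n) ^ B := by rw [mul_pow]
        _ < _ := pow_lt_pow_left₀ h10 (by positivity) h9.ne'
  · left
    exact xd_not u h

lemma sep {M m : ℕ} (hM : 2 * M ≤ m) {u u' : ℕ → ℕ} (hu : ∀ k, u k < M) (hu' : ∀ k, u' k < M)
    {k : ℕ} (hk : u k ≠ u' k) (hj : ∀ j < k, u j = u' j) :
    ((m : ℝ) ^ (tau k + 1))⁻¹ ≤ |val m (xd u) - val m (xd u')| := by
  have hlt := xd_lt hM hu
  have hlt' := xd_lt hM hu'
  rw [val_split hlt (tau k + 1), val_split hlt' (tau k + 1), Finset.sum_range_succ,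
    Finset.sum_range_succ]
  have h1 : ∑ i ∈ range (tau k), (xd u i : ℝ) / (m : ℝ) ^ (i + 1) =
      ∑ i ∈ range (tau k), (xd u' i : ℝ) / (m : ℝ) ^ (i + 1) := by
    refine Finset.sum_congr rfl fun i hi => ?_
    by_cases h : ∃ j, tau j = i
    · obtain ⟨j, rfl⟩ := h
      rw [xd_tau, xd_tau, hj j (tau_mono.lt_iff_lt.1 (Finset.mem_range.1 hi))]
    · rw [xd_not u h, xd_not u' h]
  rw [h1, xd_tau, xd_tau]
  have a0 := val_nonneg m fun i => xd u (i + (tau k + 1))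
  have a1 := val_le_one fun i => hlt (i + (tau k + 1))
  have b0 := val_nonneg m fun i => xd u' (i + (tau k + 1))
  have b1 := val_le_one fun i => hlt' (i + (tau k + 1))
  generalize val m (fun i => xd u (i + (tau k + 1))) = v at a0 a1
  generalize val m (fun i => xd u' (i + (tau k + 1))) = v' at b0 b1
  have hc : 0 ≤ ((m : ℝ) ^ (tau k + 1))⁻¹ := by positivity
  rw [div_eq_inv_mul, div_eq_inv_mul]
  generalize ((m : ℝ) ^ (tau k + 1))⁻¹ = c at hc
  push_cast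
  rcases lt_or_gt_of_ne hk with h | h
  · have : (u k : ℝ) + 1 ≤ u' k := by exact_mod_cast h
    refine le_abs.2 (Or.inr ?_)
    nlinarith
  · have : (u' k : ℝ) + 1 ≤ u k := by exact_mod_cast h
    refine le_abs.2 (Or.inl ?_)
    nlinarith

lemma holder {M m : ℕ} [NeZero M] (hM : M = 2 ^ 66) (hm : m = 2 ^ 100) {w w' : ℝ}
    (hw : w ∈ Set.Ico (0 : ℝ) 1) (hw' : w' ∈ Set.Ico (0 : ℝ) 1) :
    |w - w'| ≤ 2 ^ 66 * |val m (xd fun k => (Real.digits w M k : ℕ)) -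
      val m (xd fun k => (Real.digits w' M k : ℕ))| ^ (1 / 50 : ℝ) := by
  classical
  have hM1 : 1 < M := by rw [hM]; exact Nat.one_lt_two_pow (by norm_num)
  have h2M : 2 * M ≤ m := by
    rw [hM, hm, ← pow_succ']
    exact Nat.pow_le_pow_right (by norm_num) (by norm_num)
  by_cases h : ∃ k, (Real.digits w M k : ℕ) ≠ (Real.digits w' M k : ℕ)
  · have h1 := sep h2M (fun k => (Real.digits w M k).2) (fun k => (Real.digits w' M k).2)
      (Nat.find_spec h) fun j hj => not_not.1 (Nat.find_min h hj)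
    have h2 := val_close (fun k => (Real.digits w M k).2) (fun k => (Real.digits w' M k).2)
      (K := Nat.find h) fun j hj => not_not.1 (Nat.find_min h hj)
    rw [val_digits hM1 hw, val_digits hM1 hw'] at h2
    refine h2.trans ?_
    generalize Nat.find h = k at h1
    have h3 : (((2 : ℝ) ^ (100 * (33 * k + 33)))⁻¹) ≤ ((m : ℝ) ^ (tau k + 1))⁻¹ := by
      rw [hm, Nat.cast_pow, Nat.cast_ofNat, ← pow_mul]
      apply inv_anti₀ (by positivity)
      apply pow_le_pow_right₀ one_le_two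
      have := tau_le k
      omega
    have h4 := Real.rpow_le_rpow (by positivity) (h3.trans h1) (show (0 : ℝ) ≤ 1 / 50 by norm_num)
    refine le_trans (le_of_eq ?_) (mul_le_mul_of_nonneg_left h4 (by positivity))
    have h5 : (((2 : ℝ) ^ (100 * (33 * k + 33)))⁻¹) ^ (1 / 50 : ℝ) =
        ((2 : ℝ) ^ (66 * k + 66))⁻¹ := by
      rw [Real.inv_rpow (by positivity), ← Real.rpow_natCast, ← Real.rpow_mul (by norm_num),
        ← Real.rpow_natCast]
      congr 2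
      push_cast
      ring
    rw [h5, hM, Nat.cast_pow, Nat.cast_ofNat, ← pow_mul, pow_add]
    generalize hX : (2 : ℝ) ^ 66 = X
    have : X ≠ 0 := by rw [← hX]; positivity
    field_simp
  · push Not at h
    have : w = w' := by
      rw [← val_digits hM1 hw, ← val_digits hM1 hw']
      congr 1
      exact funext h
    rw [this, sub_self, abs_zero]
    positivity

theorem exists_slice {m n : ℕ} (hm : m = 2 ^ 100) (hn : m ^ 3 ≤ n) (hn' : 3 * n < m ^ 4) :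
    ∃ a : ℝ, a ≠ 0 ∧ ((1 / 50 : ℝ≥0) : ℝ≥0∞) ≤ dimH (Car m n ∩ {p : ℝ × ℝ | p.2 = a * p.1 + 0}) := by
  have hm4 : 4 ≤ m := by
    rw [hm]; exact Nat.pow_le_pow_right (n := 2) (by norm_num) (show 2 ≤ 100 by norm_num)
  obtain ⟨a, ha0, ha1, ha⟩ := slope hm4 hn
  refine ⟨a, ha0.ne', ?_⟩
  obtain ⟨M, hM⟩ : ∃ M : ℕ, M = 2 ^ 66 := ⟨_, rfl⟩
  have : NeZero M := ⟨by rw [hM]; positivity⟩
  have h2M : 2 * M ≤ m := by
    rw [hM, hm, ← pow_succ']
    exact Nat.pow_le_pow_right (by norm_num) (by norm_num)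
  let g : ℝ → ℝ × ℝ := fun w => (val m (xd fun k => (Real.digits w M k : ℕ)),
    a * val m (xd fun k => (Real.digits w M k : ℕ)))
  have hsub : g '' Set.Ico 0 1 ⊆ Car m n ∩ {p : ℝ × ℝ | p.2 = a * p.1 + 0} := by
    rintro _ ⟨w, -, rfl⟩
    exact ⟨mem_Car h2M hm4 hn hn' ha0 ha1 ha fun k => (Real.digits w M k).2, by simp [g]⟩
  refine le_trans ?_ (dimH_mono hsub)
  have hH : ∀ w ∈ Set.Ico (0 : ℝ) 1, ∀ w' ∈ Set.Ico (0 : ℝ) 1,
      |w - w'| ≤ 2 ^ 66 * dist (g w) (g w') ^ (1 / 50 : ℝ) := by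
    intro w hw w' hw'
    refine (holder hM hm hw hw').trans ?_
    gcongr
    rw [Prod.dist_eq]
    exact le_max_of_le_left (le_of_eq (Real.dist_eq _ _).symm)
  have hinj : Set.InjOn g (Set.Ico 0 1) := by
    intro w hw w' hw' h
    have := hH w hw w' hw'
    rw [h, dist_self, Real.zero_rpow (by norm_num), mul_zero] at this
    exact sub_eq_zero.1 (abs_nonpos_iff.1 this)
  have hHo : HolderOnWith (2 ^ 66) (1 / 50) (Function.invFunOn g (Set.Ico 0 1))
      (g '' Set.Ico 0 1) := by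
    rintro _ ⟨w, hw, rfl⟩ _ ⟨w', hw', rfl⟩
    rw [hinj.leftInvOn_invFunOn hw, hinj.leftInvOn_invFunOn hw', edist_dist, edist_dist,
      Real.dist_eq]
    refine (ENNReal.ofReal_le_ofReal (hH w hw w' hw')).trans (le_of_eq ?_)
    rw [ENNReal.ofReal_mul (by positivity), ENNReal.ofReal_rpow_of_nonneg dist_nonneg (by positivity)]
    congr 1
    rw [ENNReal.ofReal_pow (by norm_num)]
    simp
  have h1 := hHo.dimH_image_le (by norm_num)
  rw [hinj.invFunOn_image subset_rfl, Real.dimH_of_nonempty_interior (by simp)] at h1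
  simp only [Module.finrank_self, Nat.cast_one] at h1
  rwa [ENNReal.le_div_iff_mul_le (Or.inl (by simp)) (Or.inl (by simp)), one_mul] at h1

theorem irr {m : ℕ} (hm : m = 2 ^ 100) : Irrational (Real.log (m : ℝ) / Real.log ((m ^ 3 + 1 : ℕ) : ℝ)) := by
  have hm1 : 1 < m := by rw [hm]; exact Nat.one_lt_two_pow (by norm_num)
  have hn1 : 1 < m ^ 3 + 1 := by have : 0 < m ^ 3 := by positivity
                                 omega
  have l1 : 0 < Real.log (m : ℝ) := Real.log_pos (by exact_mod_cast hm1)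
  have l2 : 0 < Real.log ((m ^ 3 + 1 : ℕ) : ℝ) := Real.log_pos (by exact_mod_cast hn1)
  rintro ⟨q, hq⟩
  have hq0 : (0 : ℝ) < q := by rw [hq]; positivity
  have hq1 : 0 < q := by exact_mod_cast hq0
  have hnum : 0 < q.num := Rat.num_pos.2 hq1
  obtain ⟨p, hp⟩ := Int.eq_ofNat_of_zero_le hnum.le
  have h1 : (q : ℝ) = (p : ℝ) / (q.den : ℝ) := by
    conv_lhs => rw [← Rat.num_div_den q]
    rw [hp]; push_cast; rfl
  have hd : (0 : ℝ) < q.den := by exact_mod_cast q.den_pos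
  rw [h1, div_eq_div_iff hd.ne' l2.ne', mul_comm (Real.log m), ← Real.log_pow, ← Real.log_pow] at hq
  have h2 := Real.log_injOn_pos (Set.mem_Ioi.2 (by positivity)) (Set.mem_Ioi.2 (by positivity)) hq
  have h3 : (m ^ 3 + 1) ^ p = m ^ q.den := by exact_mod_cast h2
  have he : Even m := by rw [hm]; exact (Nat.even_pow' (by norm_num)).2 even_two
  have h4 : Odd ((m ^ 3 + 1) ^ p) := (((Nat.even_pow' (by norm_num)).2 he).add_one).pow
  have h5 : Even (m ^ q.den) := (Nat.even_pow' q.den_nz).2 he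
  rw [h3] at h4
  exact (Nat.not_even_iff_odd.2 h4) h5

theorem main : ∃ m n : ℕ, 2 ≤ m ∧ m < n ∧ Irrational (Real.log (m : ℝ) / Real.log (n : ℝ)) ∧
    ∃ a : ℝ, a ≠ 0 ∧ dimH (Car m n) - 1 < dimH (Car m n ∩ {p : ℝ × ℝ | p.2 = a * p.1 + 0}) := by
  obtain ⟨m, hm⟩ : ∃ m : ℕ, m = 2 ^ 100 := ⟨_, rfl⟩
  have hm4 : 4 ≤ m := by
    rw [hm]; exact Nat.pow_le_pow_right (n := 2) (by norm_num) (show 2 ≤ 100 by norm_num)
  have h3 : 4 * (4 * m) ≤ m ^ 3 := by
    rw [pow_succ, pow_succ, pow_one, mul_assoc]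
    gcongr
  have h4 : 4 * m ^ 3 ≤ m ^ 4 := by rw [pow_succ' m 3]; gcongr
  obtain ⟨a, ha, h⟩ := exists_slice (n := m ^ 3 + 1) hm (by omega) (by omega)
  refine ⟨m, m ^ 3 + 1, by omega, by omega, irr hm, a, ha, lt_of_lt_of_le ?_ h⟩
  have h5 := dimH_Car_le (n := m ^ 3 + 1) hm (by omega) (by omega)
  refine (tsub_le_tsub_right h5 1).trans_lt ?_
  rw [← ENNReal.coe_one, ← ENNReal.coe_sub, ENNReal.coe_lt_coe, ← NNReal.coe_lt_coe,
    NNReal.coe_sub (by rw [← NNReal.coe_le_coe]; norm_num)]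
  norm_num

end Pool.Agent.H163Z.BM
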