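import Mathlib

/-! Digit expansions and the Hausdorff dimension upper bound for the L-shaped carpet. -/

namespace Pool.Agent.H163Z.BM

open Finset Filter Topology MeasureTheory
open scoped ENNReal NNReal

noncomputable def val (b : ℕ) (a : ℕ → ℕ) : ℝ := ∑' k, (a k : ℝ) / (b : ℝ) ^ (k + 1)

lemma val_eq {b : ℕ} {a : ℕ → ℕ} (h : ∀ k, a k < b) :
    val b a = Real.ofDigits (fun k => (⟨a k, h k⟩ : Fin b)) := by
  simp [val, Real.ofDigits, Real.ofDigitsTerm, div_eq_mul_inv]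

lemma val_nonneg (b : ℕ) (a : ℕ → ℕ) : 0 ≤ val b a := tsum_nonneg fun _ => by positivity

lemma val_le_one {b : ℕ} {a : ℕ → ℕ} (h : ∀ k, a k < b) : val b a ≤ 1 := by
  rw [val_eq h]; exact Real.ofDigits_le_one _

lemma val_split {b : ℕ} {a : ℕ → ℕ} (h : ∀ k, a k < b) (K : ℕ) :
    val b a = (∑ i ∈ range K, (a i : ℝ) / (b : ℝ) ^ (i + 1)) +
      ((b : ℝ) ^ K)⁻¹ * val b (fun i => a (i + K)) := by
  rw [val_eq h, val_eq (fun i => h (i + K)), Real.ofDigits_eq_sum_add_ofDigits _ K]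
  simp [Real.ofDigitsTerm, div_eq_mul_inv]

lemma val_close {b : ℕ} {a a' : ℕ → ℕ} (h : ∀ k, a k < b) (h' : ∀ k, a' k < b) {K : ℕ}
    (hK : ∀ i < K, a i = a' i) : |val b a - val b a'| ≤ ((b : ℝ) ^ K)⁻¹ := by
  rw [val_eq h, val_eq h']
  exact Real.abs_ofDigits_sub_ofDigits_le fun i hi => by simp [hK i hi]

lemma val_digits {b : ℕ} [NeZero b] (hb : 1 < b) {x : ℝ} (hx : x ∈ Set.Ico (0 : ℝ) 1) :
    val b (fun k => (Real.digits x b k : ℕ)) = x := by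
  rw [val_eq (fun k => (Real.digits x b k).2)]
  exact Real.ofDigits_digits hb hx

def Dg (m n : ℕ) : Finset (ℕ × ℕ) := (range m ×ˢ range n).filter fun d => d.1 = 0 ∨ d.2 = 0

lemma mem_Dg {m n : ℕ} {d : ℕ × ℕ} : d ∈ Dg m n ↔ (d.1 < m ∧ d.2 < n) ∧ (d.1 = 0 ∨ d.2 = 0) := by
  simp [Dg]

def Car (m n : ℕ) : Set (ℝ × ℝ) :=
  {p | ∃ d : ℕ → ℕ × ℕ, (∀ k, d k ∈ Dg m n) ∧ p.1 = val m (fun k => (d k).1) ∧
    p.2 = val n (fun k => (d k).2)}

def zz (x : ℕ) : ℕ := if x = 0 then 1 else 0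

noncomputable def wa (m : ℕ) (d : ℕ × ℕ) : ℝ := (((m : ℝ) ^ zz d.1)⁻¹) ^ 2
noncomputable def wb (m : ℕ) (x : ℕ) : ℝ := (m : ℝ) ^ zz x

lemma sum_wb (m : ℕ) : ∑ x : Fin m, wb m x ≤ 2 * m := by
  have h1 : ∀ x : Fin m, wb m x ≤ (if (x : ℕ) = 0 then (m : ℝ) else 0) + 1 := by
    intro x
    unfold wb zz
    split_ifs <;> simp
  refine (Finset.sum_le_sum fun x _ => h1 x).trans ?_
  rw [Finset.sum_add_distrib]
  have h2 : ∑ x : Fin m, (if (x : ℕ) = 0 then (m : ℝ) else 0) ≤ m := by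
    rw [Fin.sum_univ_eq_sum_range (fun x => if x = 0 then (m : ℝ) else 0) m,
      Finset.sum_ite_eq' (range m) 0]
    split_ifs <;> simp
  simp only [Finset.sum_const, Finset.card_univ, Fintype.card_fin, nsmul_eq_mul, mul_one]
  linarith

lemma sum_wa (m n : ℕ) (hm : 1 ≤ m) (hn : n ≤ 2 * m ^ 3) : ∑ d : Dg m n, wa m d ≤ 3 * m := by
  rw [Finset.sum_coe_sort (Dg m n) (wa m)]
  have hm' : (1 : ℝ) ≤ m := by exact_mod_cast hm
  have h1 : ∀ d ∈ range m ×ˢ range n, (if d.1 = 0 ∨ d.2 = 0 then wa m d else 0) ≤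
      (if d.1 = 0 then ((m : ℝ)⁻¹) ^ 2 else 0) + (if d.2 = 0 then (1 : ℝ) else 0) := by
    intro d _
    unfold wa zz
    by_cases h1 : d.1 = 0 <;> by_cases h2 : d.2 = 0 <;> simp [h1, h2]
  rw [Dg, Finset.sum_filter]
  refine (Finset.sum_le_sum h1).trans ?_
  rw [Finset.sum_add_distrib, Finset.sum_product, Finset.sum_product]
  have h2 : ∑ x ∈ range m, ∑ _y ∈ range n, (if x = 0 then ((m : ℝ)⁻¹) ^ 2 else 0) ≤ 2 * m := by
    simp only [Finset.sum_const, Finset.card_range, nsmul_eq_mul, mul_ite, mul_zero]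
    rw [Finset.sum_ite_eq' (range m) 0]
    have : (n : ℝ) ≤ 2 * m ^ 3 := by exact_mod_cast hn
    split_ifs
    · calc (n : ℝ) * ((m : ℝ)⁻¹) ^ 2 ≤ 2 * m ^ 3 * ((m : ℝ)⁻¹) ^ 2 := by gcongr
        _ = 2 * (m : ℝ) := by field_simp
    · positivity
  have h3 : ∑ _x ∈ range m, ∑ y ∈ range n, (if y = 0 then (1 : ℝ) else 0) ≤ m := by
    rw [Finset.sum_ite_eq' (range n) 0]
    simp only [Finset.sum_const, Finset.card_range, nsmul_eq_mul]
    split_ifs <;> simp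
  simp only at h2 h3 ⊢
  linarith

abbrev Ix (m n k : ℕ) := (Fin k → Dg m n) × (Fin (2 * k) → Fin m)

noncomputable def ww {m n k : ℕ} (σ : Ix m n k) : ℝ := (∏ i, wa m (σ.1 i)) * ∏ j, wb m (σ.2 j)

lemma ww_nonneg {m n k : ℕ} (σ : Ix m n k) : 0 ≤ ww σ := by
  unfold ww wa wb
  positivity

lemma sum_ww (m n k : ℕ) (hm : 1 ≤ m) (hn : n ≤ 2 * m ^ 3) :
    ∑ σ : Ix m n k, ww σ ≤ (12 * m ^ 3) ^ k := by
  unfold ww
  rw [Fintype.sum_prod_type]
  simp only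
  rw [← Finset.sum_mul_sum, ← Fintype.prod_sum (fun _ (d : Dg m n) => wa m d),
    ← Fintype.prod_sum (fun _ (x : Fin m) => wb m x)]
  simp only [Finset.prod_const, Finset.card_univ, Fintype.card_fin]
  have h1 : 0 ≤ ∑ d : Dg m n, wa m d := Finset.sum_nonneg fun _ _ => by unfold wa; positivity
  have h2 : 0 ≤ ∑ x : Fin m, wb m x := Finset.sum_nonneg fun _ _ => by unfold wb; positivity
  calc _ ≤ (3 * (m : ℝ)) ^ k * (2 * m) ^ (2 * k) := by
        gcongr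
        · exact sum_wa m n hm hn
        · exact sum_wb m
    _ = (12 * m ^ 3) ^ k := by rw [pow_mul, ← mul_pow]; congr 1; ring

def cyl {m n k : ℕ} (σ : Ix m n k) : Set (ℝ × ℝ) :=
  {p | 1 ≤ 2 ^ k * ww σ ∧ ∃ d : ℕ → ℕ × ℕ, (∀ k, d k ∈ Dg m n) ∧ p.1 = val m (fun k => (d k).1) ∧
    p.2 = val n (fun k => (d k).2) ∧ (∀ i : Fin k, d i = σ.1 i) ∧
      ∀ j : Fin (2 * k), (d (k + j)).1 = σ.2 j}

lemma ediam_cyl {m n k : ℕ} (hm : 1 ≤ m) (hn : m ^ 3 ≤ n) (σ : Ix m n k) :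
    Metric.ediam (cyl σ) ≤ ENNReal.ofReal (((m : ℝ) ^ (3 * k))⁻¹) := by
  apply Metric.ediam_le
  rintro p ⟨-, d, hd, h1, h2, h3, h4⟩ q ⟨-, d', hd', h1', h2', h3', h4'⟩
  rw [edist_dist]
  apply ENNReal.ofReal_le_ofReal
  rw [Prod.dist_eq, Real.dist_eq, Real.dist_eq, h1, h2, h1', h2']
  apply max_le
  · apply val_close (fun k => (mem_Dg.1 (hd k)).1.1) (fun k => (mem_Dg.1 (hd' k)).1.1)
    intro i hi
    by_cases hik : i < k
    · simp only [h3 ⟨i, hik⟩, h3' ⟨i, hik⟩]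
    · have e : i = k + (i - k) := by omega
      have := h4 ⟨i - k, by omega⟩
      have h5 := h4' ⟨i - k, by omega⟩
      simp only [← e] at this h5
      rw [this, h5]
  · refine (val_close (fun k => (mem_Dg.1 (hd k)).1.2) (fun k => (mem_Dg.1 (hd' k)).1.2)
      (K := k) ?_).trans ?_
    · intro i hi
      simp only [h3 ⟨i, hi⟩, h3' ⟨i, hi⟩]
    · have hm' : (1 : ℝ) ≤ m := by exact_mod_cast hm
      have : (m : ℝ) ^ 3 ≤ n := by exact_mod_cast hn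
      rw [pow_mul]
      gcongr

lemma exists_good (Z : ℕ → ℕ) (hZ : ∀ k, Z k ≤ k) (N : ℕ) :
    ∃ i < 301, 300 * Z (3 ^ (N + i)) ≤ 3 ^ (N + i) + 100 * Z (3 * 3 ^ (N + i)) := by
  by_contra hn
  push Not at hn
  have h1 : ∀ i ≤ 301, 300 * Z (3 ^ (N + i)) + i * 3 ^ (N + i) ≤ 300 * 3 ^ (N + i) := by
    intro i hi
    induction i with
    | zero => have := hZ (3 ^ (N + 0)); omega
    | succ i ih =>
      have h2 := ih (by omega)
      have h3 := hn i (by omega)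
      rw [show N + (i + 1) = (N + i) + 1 by omega, pow_succ, mul_comm (3 ^ (N + i)) 3]
      nlinarith
  have h2 := h1 301 le_rfl
  have h3 : 0 < 3 ^ (N + 301) := by positivity
  omega

lemma cover {m n : ℕ} (hm : m = 2 ^ 100) (N : ℕ) :
    Car m n ⊆ ⋃ s : (Σ i : Fin 301, Ix m n (3 ^ (N + i))), cyl s.2 := by
  rintro p ⟨d, hd, h1, h2⟩
  obtain ⟨i, hi, h⟩ := exists_good (fun k => ∑ t ∈ range k, zz (d t).1) (fun k => by
    calc ∑ t ∈ range k, zz (d t).1 ≤ ∑ _t ∈ range k, 1 :=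
          Finset.sum_le_sum fun t _ => by unfold zz; split_ifs <;> simp
      _ = k := by simp) N
  refine Set.mem_iUnion.2 ⟨⟨⟨i, hi⟩, (fun t => ⟨d t, hd t⟩,
    fun j => ⟨(d (3 ^ (N + i) + j)).1, (mem_Dg.1 (hd _)).1.1⟩)⟩, ?_, d, hd, h1, h2,
    fun _ => rfl, fun _ => rfl⟩
  simp only
  generalize 3 ^ (N + i) = k at h ⊢
  unfold ww wa wb
  simp only
  rw [Fin.prod_univ_eq_prod_range (fun t => (((m : ℝ) ^ zz (d t).1)⁻¹) ^ 2) k,
    Fin.prod_univ_eq_prod_range (fun t => (m : ℝ) ^ zz (d (k + t)).1) (2 * k),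
    Finset.prod_pow, Finset.prod_inv_distrib, Finset.prod_pow_eq_pow_sum,
    Finset.prod_pow_eq_pow_sum]
  rw [show 3 * k = k + 2 * k by omega, Finset.sum_range_add] at h
  generalize ∑ t ∈ range k, zz (d t).1 = A at h ⊢
  generalize ∑ t ∈ range (2 * k), zz (d (k + t)).1 = B at h ⊢
  have hm' : (m : ℝ) = 2 ^ 100 := by rw [hm, Nat.cast_pow, Nat.cast_ofNat]
  rw [hm', inv_pow, ← pow_mul, ← pow_mul, ← pow_mul, mul_left_comm, ← pow_add,
    ← div_eq_inv_mul, le_div_iff₀ (by positivity), one_mul]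
  exact pow_le_pow_right₀ one_le_two (by omega)

lemma sum_cyl {m n : ℕ} (hm : m = 2 ^ 100) (hn : m ^ 3 ≤ n) (hn' : n ≤ 2 * m ^ 3) (k : ℕ) :
    ∑ σ : Ix m n k, Metric.ediam (cyl σ) ^ (61 / 60 : ℝ) ≤ ENNReal.ofReal ((3 / 4) ^ k) := by
  have hm1 : 1 ≤ m := by rw [hm]; exact Nat.one_le_two_pow
  have hm' : (m : ℝ) = 2 ^ 100 := by rw [hm, Nat.cast_pow, Nat.cast_ofNat]
  have hρ : (((m : ℝ) ^ (3 * k))⁻¹) ^ (61 / 60 : ℝ) = (((2 : ℝ) ^ 305) ^ k)⁻¹ := by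
    rw [hm', ← pow_mul, ← pow_mul, Real.inv_rpow (by positivity), ← Real.rpow_natCast,
      ← Real.rpow_mul (by norm_num), ← Real.rpow_natCast]
    congr 2
    push_cast
    ring
  have h1 : ∀ σ : Ix m n k, Metric.ediam (cyl σ) ^ (61 / 60 : ℝ) ≤
      ENNReal.ofReal (2 ^ k * ww σ * (((2 : ℝ) ^ 305) ^ k)⁻¹) := by
    intro σ
    by_cases h : 1 ≤ 2 ^ k * ww σ
    · refine (ENNReal.rpow_le_rpow (ediam_cyl hm1 hn σ) (by norm_num)).trans ?_
      rw [ENNReal.ofReal_rpow_of_nonneg (by positivity) (by norm_num), hρ]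
      apply ENNReal.ofReal_le_ofReal
      exact le_mul_of_one_le_left (by positivity) h
    · have : cyl σ = ∅ := Set.eq_empty_of_forall_notMem fun p hp => h hp.1
      rw [this, Metric.ediam_empty, ENNReal.zero_rpow_of_pos (by norm_num)]
      exact zero_le
  refine (Finset.sum_le_sum fun σ _ => h1 σ).trans ?_
  rw [← ENNReal.ofReal_sum_of_nonneg fun σ _ => by have := ww_nonneg σ; positivity]
  apply ENNReal.ofReal_le_ofReal
  rw [← Finset.sum_mul, ← Finset.mul_sum]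
  calc _ ≤ 2 ^ k * (12 * (m : ℝ) ^ 3) ^ k * (((2 : ℝ) ^ 305) ^ k)⁻¹ := by
        gcongr
        exact sum_ww m n k hm1 hn'
    _ = (3 / 4) ^ k := by
        rw [← mul_pow, ← inv_pow, ← mul_pow, hm']
        congr 1
        rw [← pow_mul, show 305 = 100 * 3 + 5 by norm_num, pow_add]
        generalize hX : (2 : ℝ) ^ (100 * 3) = X
        have : X ≠ 0 := by rw [← hX]; positivity
        field_simp
        norm_num

theorem dimH_Car_le {m n : ℕ} (hm : m = 2 ^ 100) (hn : m ^ 3 ≤ n) (hn' : n ≤ 2 * m ^ 3) :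
    dimH (Car m n) ≤ ((61 / 60 : ℝ≥0) : ℝ≥0∞) := by
  have hm1 : 1 ≤ m := by rw [hm]; exact Nat.one_le_two_pow
  have hm2 : (2 : ℝ) ≤ m := by
    have : 2 ^ 1 ≤ m := by rw [hm]; exact Nat.pow_le_pow_right (by norm_num) (by norm_num)
    exact_mod_cast this
  apply dimH_le_of_hausdorffMeasure_ne_top
  have hr : Tendsto (fun N : ℕ => ENNReal.ofReal ((1 / 2 : ℝ) ^ N)) atTop (𝓝 0) := by
    rw [← ENNReal.ofReal_zero]
    exact ENNReal.tendsto_ofReal (tendsto_pow_atTop_nhds_zero_of_lt_one (by norm_num) (by norm_num))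
  have h := Measure.hausdorffMeasure_le_liminf_sum (61 / 60 : ℝ) (Car m n) (l := atTop)
    (fun N : ℕ => ENNReal.ofReal ((1 / 2 : ℝ) ^ N)) hr
    (fun N (s : (Σ i : Fin 301, Ix m n (3 ^ (N + i)))) => cyl s.2) (Eventually.of_forall ?_)
    (Eventually.of_forall fun N => cover hm N)
  · have h2 : ∀ N : ℕ, ∑ s : (Σ i : Fin 301, Ix m n (3 ^ (N + i))),
        Metric.ediam (cyl s.2) ^ (61 / 60 : ℝ) ≤ 301 := by
      intro N
      rw [Fintype.sum_sigma]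
      calc _ ≤ ∑ _i : Fin 301, (1 : ℝ≥0∞) := by
            refine Finset.sum_le_sum fun i _ => (sum_cyl hm hn hn' _).trans ?_
            rw [← ENNReal.ofReal_one]
            exact ENNReal.ofReal_le_ofReal (pow_le_one₀ (by norm_num) (by norm_num))
        _ = 301 := by simp
    have h3 := h.trans (liminf_le_of_frequently_le' (Frequently.of_forall h2))
    have e : ((61 / 60 : ℝ≥0) : ℝ) = 61 / 60 := by norm_num
    rw [e]
    exact ne_top_of_le_ne_top (by norm_num) h3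
  · intro N s
    refine (ediam_cyl hm1 hn s.2).trans (ENNReal.ofReal_le_ofReal ?_)
    rw [one_div, inv_pow]
    have h1 : N ≤ 3 * 3 ^ (N + s.1) := by
      have := Nat.lt_pow_self (n := N + s.1) (show 1 < 3 by norm_num)
      omega
    have : (2 : ℝ) ^ N ≤ (m : ℝ) ^ (3 * 3 ^ (N + s.1)) :=
      (pow_le_pow_left₀ (by norm_num) hm2 N).trans (pow_le_pow_right₀ (by linarith) h1)
    gcongr

end Pool.Agent.H163Z.BM
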